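import Mathlib
import Pool.Agent.H30W.Gap

/-!
# Integrality lowers the order of vanishing at `1`

`M(n)` is the largest order of vanishing at `1` of a nonzero polynomial of degree `≤ n` with coefficients in
`{-1, 0, 1}`.  Without integrality (`|a_0| = 1`, `|a_j| ≤ 1`) the largest order is `(π / 2 + o(1)) √n`, with
an error term of lower order in `n`.  We show that integrality makes it smaller:
`M(n) ≤ (π / 2) √n - √n / (log n) ^ 9` for large `n`.

Proof. Let `p = ∑ a_j x ^ j`, `a_0 = 1`, have order `k > (π / 2) √n - √n / (log n) ^ 9` at `1`.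
(1) There is a polynomial `Q` of degree `< k` with `Q(0) = 1` and `∑_{1 ≤ j ≤ n} |Q(j)| ≤ 1 + δ`, where
`δ = o((log n) ^ (-8))`, and `Q(j)` has the sign `-(-1) ^ ⌊√j⌋` and size at least `1 / (100 j ^ 2)` at the
nonsquares `j ≤ 30 (log n) ^ 4`. As `∑ a_j Q(j) = 0` and the `a_j` are integers, `a_j = (-1) ^ ⌊√j⌋` for
these `j`.
(2) The norm of `p(ζ)` and its derivatives, `ζ` a primitive `8`-th root of unity, is divisible by a high power of `2`, so
`(x ^ 4 + 1) ^ m ∣ p` with `m` about `√n / (5 log n)`. Hence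
`∑_{j ≡ 6 mod 8} a_j H(j) - ∑_{j ≡ 2 mod 8} a_j H(j) = 0` for every polynomial `H` of degree `< m`; these classes hold no
squares.
(3) For the signs in (1), the partial sums of this series are at least `√j / 2 - 2`; with a Chebyshev polynomial
`H` that decreases on `[0, 30 (log n) ^ 4]` and is small on the rest of `[0, n]` this contradicts (2).
-/

set_option autoImplicit false

open Polynomial

namespace Pool.Agent.Results.MP_178164_nt.IntegralUpper

/-- `F_n`: integer polynomials of degree at most `n` with all coefficients in `{-1, 0, 1}`. -/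
def F (n : ℕ) : Set ℤ[X] :=
  {P | P.natDegree ≤ n ∧ ∀ i, P.coeff i = -1 ∨ P.coeff i = 0 ∨ P.coeff i = 1}

/-- the orders of vanishing at `1` that are attained (at least) by nonzero elements of `F_n` -/
def orders (n : ℕ) : Set ℕ := {k | ∃ P ∈ F n, P ≠ 0 ∧ (X - 1) ^ k ∣ P}

/-- `M(n) = max {k : (x-1)^k ∣ p for some p ∈ F_n, p ≠ 0}` -/
noncomputable def M (n : ℕ) : ℕ := sSup (orders n)

lemma orders_le {n k : ℕ} (h : k ∈ orders n) : k ≤ n := by
  obtain ⟨P, ⟨hn, _⟩, h0, hd⟩ := h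
  have h1 := natDegree_le_of_dvd hd h0
  have h2 : ((X - 1 : ℤ[X]) ^ k).natDegree = k := by
    have : (X - 1 : ℤ[X]) = X - C 1 := by simp
    rw [this, (monic_X_sub_C (1 : ℤ)).natDegree_pow, natDegree_X_sub_C, mul_one]
  omega

lemma bddAbove_orders (n : ℕ) : BddAbove (orders n) := ⟨n, fun _ h => orders_le h⟩

/-- the supremum defining `M n` is a maximum -/
lemma M_mem (n : ℕ) : M n ∈ orders n := by
  apply Nat.sSup_mem _ (bddAbove_orders n)
  refine ⟨0, 1, ⟨by simp, ?_⟩, one_ne_zero, by simp⟩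
  intro i
  rw [coeff_one]
  split_ifs <;> simp

theorem result : ∃ n0 : ℕ, ∀ n : ℕ, n0 ≤ n →
    (M n : ℝ) ≤ Real.pi / 2 * √(n : ℝ) - √(n : ℝ) / Real.log n ^ 9 ∧
    ∃ p : ℝ[X], p.natDegree ≤ n ∧ p.coeff 0 = 1 ∧ (∀ j, |p.coeff j| ≤ 1) ∧
      (M n : ℝ) + √(n : ℝ) / Real.log n ^ 9 / 2 ≤ (p.rootMultiplicity 1 : ℝ) := by
  obtain ⟨n0, h0⟩ := H30W.int_upper
  obtain ⟨n1, h1⟩ := H30W.gap
  refine ⟨max n0 n1, fun n hn => ?_⟩
  obtain ⟨P, ⟨hd, hc⟩, hP, hk⟩ := M_mem n
  refine ⟨h0 n (le_of_max_le_left hn) (M n) P hd hc hP hk, ?_⟩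
  obtain ⟨p, p1, p2, p3, p4⟩ := h1 n (le_of_max_le_right hn)
  exact ⟨p, p1, p2, p3, p4 (M n) P hd hc hP hk⟩

end Pool.Agent.Results.MP_178164_nt.IntegralUpper
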