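import Mathlib
import Pool.Agent.H30V.MB
import Pool.Agent.H30S.Final

/-!
# `π / 2` is the exact constant for the order of vanishing at `1` when coefficients need not be integers

Let `k` be the largest order of vanishing at `1` of a polynomial `∑_{j ≤ n} a_j x ^ j` with `|a_0| = 1` and
`|a_j| ≤ 1`.  The known bounds are `√n - 1 ≤ k ≤ (16 / 7) √n + 4`.  We prove `k = (π / 2 + o(1)) √n`, for complex and
for real coefficients, and that the lower bound is attained with all but at most `k` of the coefficients equal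
to `1` or `-1`.

Upper bound. A zero of order `k` at `1` annihilates all polynomials `Q` of degree `< k`:
`∑ a_j Q(j) = 0`.  So it is enough to find a polynomial `Q` of small degree with
`∑_{j = 1}^n |Q(j)| < |Q(0)|`.  We take the Hann window kernel
`Q(x) = (1/M) (1 + ∑_{0 < l < M} (1 + cos (π l / M)) T_l(1 - 2 x / L))`, `L = 4 M ^ 2 / π ^ 2 ≥ n`, which
tends to `G(√x)`, `G(t) = sin (π t) / (π t (1 - t ^ 2))`, times a factor of small degree.  The key is the
identity `∑_{j ≥ 1} |G(√j)| = 1 = G(0)`: the sign of `G(√j)` is `-(-1) ^ ⌊√j⌋`, these are the coefficients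
of `θ_4(q) / (1 - q)`, and `∑_j (-1) ^ ⌊√j⌋ G(√j) = 0` follows from an alternating quadrature formula at
the Chebyshev nodes, shifted by the integers and passed to the limit.

Lower bound. `p = q / (1 - x)`, where `q` is supported on integers `0 = e_0 < e_1 < ... < e_m` and vanishes at `1` to
order `m`; the coefficients of `q` are the divided difference weights of the nodes `e_i`, those of `p` their
partial sums.  We take `e_i = i ^ 2` for small `i` (where the theta function asks for it) and integers that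
follow the Chebyshev nodes `(4 N ^ 2 / π ^ 2) sin ^ 2 (π i / 2 N)` for large `i`, `m = N - o(N)`: then the weights are
`1, -w_1, w_2, ...` with `2 > w_1 > w_2 > ...` up to a point beyond which their sum is tiny, so all partial
sums lie in `[-1, 1]`.  Passing to an extreme point of the set of all such `p` makes all but `k` coefficients
`1` or `-1`.
-/

set_option autoImplicit false

open Polynomial

namespace Pool.Agent.Results.MP_178164_nt.PiHalfSharp

/-- `F_n`: integer polynomials of degree at most `n` with all coefficients in `{-1, 0, 1}`. -/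
def F (n : ℕ) : Set ℤ[X] :=
  {P | P.natDegree ≤ n ∧ ∀ i, P.coeff i = -1 ∨ P.coeff i = 0 ∨ P.coeff i = 1}

/-- the orders of vanishing at `1` that are attained (at least) by nonzero elements of `F_n` -/
def orders (n : ℕ) : Set ℕ := {k | ∃ P ∈ F n, P ≠ 0 ∧ (X - 1) ^ k ∣ P}

/-- `M(n) = max {k : (x-1)^k ∣ p for some p ∈ F_n, p ≠ 0}` -/
noncomputable def M (n : ℕ) : ℕ := sSup (orders n)

lemma orders_le {n k : ℕ} (h : k ∈ orders n) : k ≤ n := by
  obtain ⟨P, ⟨hn, _⟩, h0, hd⟩ := h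
  have h1 := natDegree_le_of_dvd hd h0
  have h2 : ((X - 1 : ℤ[X]) ^ k).natDegree = k := by
    have : (X - 1 : ℤ[X]) = X - C 1 := by simp
    rw [this, (monic_X_sub_C (1 : ℤ)).natDegree_pow, natDegree_X_sub_C, mul_one]
  omega

lemma bddAbove_orders (n : ℕ) : BddAbove (orders n) := ⟨n, fun _ h => orders_le h⟩

/-- the supremum defining `M n` is a maximum -/
lemma M_mem (n : ℕ) : M n ∈ orders n := by
  apply Nat.sSup_mem _ (bddAbove_orders n)
  refine ⟨0, 1, ⟨by simp, ?_⟩, one_ne_zero, by simp⟩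
  intro i
  rw [coeff_one]
  split_ifs <;> simp

theorem result :
    (∀ n : ℕ, 1 ≤ n → ∀ p : ℂ[X], p.natDegree ≤ n → ‖p.coeff 0‖ = 1 → (∀ j, ‖p.coeff j‖ ≤ 1) →
      (p.rootMultiplicity 1 : ℝ) ≤ Real.pi / 2 * √(n : ℝ) + 4 * (n : ℝ) ^ (1 / 3 : ℝ)) ∧
    (∀ n : ℕ, 1 ≤ n → (M n : ℝ) ≤ Real.pi / 2 * √(n : ℝ) + 4 * (n : ℝ) ^ (1 / 3 : ℝ)) ∧
    ∀ n : ℕ, 1 ≤ n → ∃ p : ℝ[X], p.natDegree ≤ n ∧ p.coeff 0 = 1 ∧ (∀ j, |p.coeff j| ≤ 1) ∧
      ((Finset.range (n + 1)).filter (fun j => |p.coeff j| < 1)).card ≤ p.rootMultiplicity 1 ∧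
      Real.pi / 2 * √(n : ℝ) - 300 * (n : ℝ) ^ (2 / 5 : ℝ) * Real.log (n + 1) ≤
        (p.rootMultiplicity 1 : ℝ) := by
  have h1 : ∀ n : ℕ, 1 ≤ n → ∀ p : ℂ[X], p.natDegree ≤ n → ‖p.coeff 0‖ = 1 →
      (∀ j, ‖p.coeff j‖ ≤ 1) →
      (p.rootMultiplicity 1 : ℝ) ≤ Real.pi / 2 * √(n : ℝ) + 4 * (n : ℝ) ^ (1 / 3 : ℝ) :=
    fun n hn p hp h0 h1 => H30V.order_all n hn p hp h0 h1
  refine ⟨h1, fun n hn => ?_, fun n hn => H30S.lower_real n hn⟩
  obtain ⟨P, ⟨hn1, hc⟩, h0, hd⟩ := M_mem n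
  exact H30V.order_transfer n _ (fun p hp h0 h2 => h1 n hn p hp h0 h2) (M n) P hn1 hc h0 hd

end Pool.Agent.Results.MP_178164_nt.PiHalfSharp
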