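import Pool.Agent.RunVan77.Final

set_option autoImplicit false

/-!
# MP_178164_nt: order of vanishing at 1 and runs of nonzero coefficients

A nonzero polynomial of degree at most `n` with coefficients in `{-1, 0, 1}` whose nonzero
coefficients form `r` runs vanishes at `1` to order at most `C r log² n / log (r log n)`.  The same
bound holds with `r` replaced by the number of coefficients of `D P` that are not divisible by `ℓ`,
for every integer polynomial `D` of degree at most `n` and every integer `ℓ`, if this number is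
positive.
-/

open Polynomial

namespace Pool.Agent.Results.MP_178164_nt.RunsBound

/-- `F_n`: integer polynomials of degree at most `n` with all coefficients in `{-1, 0, 1}`. -/
def F (n : ℕ) : Set ℤ[X] :=
  {P | P.natDegree ≤ n ∧ ∀ i, P.coeff i = -1 ∨ P.coeff i = 0 ∨ P.coeff i = 1}

/-- The number of runs of `P`: the number of indices `i` with a nonzero coefficient such that
`i = 0` or the coefficient at `i - 1` is zero. -/
noncomputable def runs (P : ℤ[X]) : ℕ :=
  (P.support.filter (fun i => i = 0 ∨ P.coeff (i - 1) = 0)).card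

/-- The number of coefficients of `S` that are not divisible by `ℓ`. -/
noncomputable def terms (ℓ : ℕ) (S : ℤ[X]) : ℕ :=
  (S.support.filter (fun i => ¬ (ℓ : ℤ) ∣ S.coeff i)).card

/-- The bounds in terms of runs, and of sparse multiples modulo `ℓ`. -/
theorem result : ∃ C : ℝ, 0 < C ∧ ∀ n : ℕ, 3 ≤ n → ∀ P ∈ F n, P ≠ 0 → ∀ k : ℕ, (X - 1) ^ k ∣ P →
    ((k : ℝ) ≤ C * runs P * Real.log n ^ 2 / Real.log (runs P * Real.log n)) ∧
    ∀ (ℓ : ℕ) (D : ℤ[X]), D.natDegree ≤ n → 1 ≤ terms ℓ (D * P) →
      (k : ℝ) ≤ C * terms ℓ (D * P) * Real.log n ^ 2 /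
        Real.log (terms ℓ (D * P) * Real.log n) := by
  refine ⟨24 * 10 ^ 7, by norm_num, ?_⟩
  intro n hn P hPF hP0 k hk
  obtain ⟨hPn, hPc⟩ := hPF
  have hc : ∀ i, |P.coeff i| ≤ 1 := by
    intro i
    rcases hPc i with h | h | h <;> rw [h] <;> simp
  have hruns : runs P = RunVan77.runs P.support := by
    unfold runs RunVan77.runs
    congr 1
    apply Finset.filter_congr
    intro i _
    rw [mem_support_iff, not_not]
  refine ⟨?_, ?_⟩
  · rw [hruns]
    exact RunVan77.runs_bound hn hP0 hPn hc hk
  · intro ℓ D hD ht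
    have h := RunVan77.general hn hPn hc hk hD (ℓ := ℓ) ht
    have ht1 : (1 : ℝ) ≤ terms ℓ (D * P) := by exact_mod_cast ht
    have hL := RunVan77.one_lt_log hn
    have h1 : 1 < (terms ℓ (D * P) : ℝ) * Real.log n := by nlinarith
    have h2 : 0 < Real.log ((terms ℓ (D * P) : ℝ) * Real.log n) := Real.log_pos h1
    refine h.trans ?_
    apply div_le_div_of_nonneg_right _ h2.le
    show (12 * 10 ^ 7 : ℝ) * (terms ℓ (D * P) : ℝ) * Real.log n ^ 2 ≤
      24 * 10 ^ 7 * (terms ℓ (D * P) : ℝ) * Real.log n ^ 2
    gcongr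
    norm_num

end Pool.Agent.Results.MP_178164_nt.RunsBound
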