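import Mathlib
import Pool.Agent.Lib.H4VanFinal

/-!
# MP_178164_nt: a better lower bound for the order of vanishing at 1

`M n` is the largest order of vanishing at `1` of a nonzero polynomial of degree at most `n` with
coefficients in `{-1, 0, 1}`.  The known bounds are `√(n / log n) ≪ M n ≪ √n`.  We prove
`M n ≥ c √(n log log n / log n)`.

Outline.  The polynomial is made to vanish to order `m_d` at the primitive `d`-th roots of unity
for all `d ≤ V = k / log k`, with `m_1 = k` and `m_d ≈ k h(d) / d`, where `h(d)` is the proportion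
of the `≈ log log k` dyadic-exponential scales `y_s = 2^(2^s)` below the least prime factor of `d`.
A counting argument (`count`) applied to the family `R A + U`, with `A` a `0,1` polynomial and `U`
a polynomial of degree `< deg G` with coefficients in `[0, R)`, uses the exact sizes of the norms
of the Taylor coefficients modulo the already forced factors: after the vanishing at the primitive
`e`-th roots for `e > d` is known, the norm at the primitive `d`-th roots is divisible by the
resultants of `Φ_d` with the `Φ_e`, which is `≥ p^(φ(d))` when `e = d p^j`, and by the powers of the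
discriminant of `Φ_d`.  The exponent is then a quadratic form in the `m_d` which is bounded
(`star`) by `∑ w_d x_d² (log (N/(kV)) + ...)` plus a Dirichlet form
`∑_d w_d ∑_b Λ(b)/b (x_d - x_{db})²`, `x_d = d m_d / k`, `w_d = φ(d)/d²`; for the profile `h` both
are `O(log k / log log k)`.
-/

set_option autoImplicit false

open Polynomial

namespace Pool.Agent.Results.MP_178164_nt.VanishingOrderLower

/-- `F_n`: integer polynomials of degree at most `n` with all coefficients in `{-1, 0, 1}`. -/
def F (n : ℕ) : Set ℤ[X] :=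
  {P | P.natDegree ≤ n ∧ ∀ i, P.coeff i = -1 ∨ P.coeff i = 0 ∨ P.coeff i = 1}

/-- the orders of vanishing at `1` that are attained (at least) by nonzero elements of `F_n` -/
def orders (n : ℕ) : Set ℕ := {k | ∃ P ∈ F n, P ≠ 0 ∧ (X - 1) ^ k ∣ P}

/-- `M(n) = max {k : (x-1)^k ∣ p for some p ∈ F_n, p ≠ 0}` -/
noncomputable def M (n : ℕ) : ℕ := sSup (orders n)

lemma orders_le {n k : ℕ} (h : k ∈ orders n) : k ≤ n := by
  obtain ⟨P, ⟨hn, _⟩, h0, hd⟩ := h
  have h1 := natDegree_le_of_dvd hd h0
  have h2 : ((X - 1 : ℤ[X]) ^ k).natDegree = k := by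
    have : (X - 1 : ℤ[X]) = X - C 1 := by simp
    rw [this, (monic_X_sub_C (1 : ℤ)).natDegree_pow, natDegree_X_sub_C, mul_one]
  omega

lemma bddAbove_orders (n : ℕ) : BddAbove (orders n) := ⟨n, fun _ h => orders_le h⟩

lemma le_M {n k : ℕ} (h : k ∈ orders n) : k ≤ M n := le_csSup (bddAbove_orders n) h

/-- the supremum defining `M n` is a maximum -/
lemma M_mem (n : ℕ) : M n ∈ orders n := by
  apply Nat.sSup_mem _ (bddAbove_orders n)
  refine ⟨0, 1, ⟨by simp, ?_⟩, one_ne_zero, by simp⟩
  intro i
  rw [coeff_one]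
  split_ifs <;> simp

lemma one_le_M {n : ℕ} (hn : 1 ≤ n) : 1 ≤ M n := by
  apply le_M
  refine ⟨X - 1, ⟨?_, ?_⟩, ?_, by simp⟩
  · have : (X - 1 : ℤ[X]) = X - C 1 := by simp
    rw [this, natDegree_X_sub_C]
    exact hn
  · intro i
    rw [coeff_sub, coeff_X, coeff_one]
    split_ifs <;> simp
  · have : (X - 1 : ℤ[X]) = X - C 1 := by simp
    rw [this]
    exact X_sub_C_ne_zero 1

open Filter in
/-- There is an absolute constant `c > 0` with `M(n) ≥ c √(n log log n / log n)` for all `n ≥ 3`. -/
theorem result : ∃ c : ℝ, 0 < c ∧ ∀ n : ℕ, 3 ≤ n →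
    c * √((n : ℝ) * Real.log (Real.log n) / Real.log n) ≤ (M n : ℝ) := by
  obtain ⟨K0, hK0⟩ := H4Van.poly_of_large
  -- eventual inequalities
  have hlogt : Tendsto (fun n : ℕ => Real.log (n : ℝ)) atTop atTop :=
    Real.tendsto_log_atTop.comp tendsto_natCast_atTop_atTop
  have e1 : ∀ᶠ x : ℝ in atTop, 1000 ≤ x := eventually_ge_atTop 1000
  have e2 : ∀ᶠ x : ℝ in atTop, 1000 * Real.log x ≤ x := by
    have h := Real.isLittleO_log_id_atTop.bound (by norm_num : (0 : ℝ) < 1 / 1000)
    filter_upwards [h, eventually_ge_atTop (1 : ℝ)] with x hx hx1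
    rw [Real.norm_eq_abs, Real.norm_eq_abs, id, abs_of_nonneg (Real.log_nonneg hx1),
      abs_of_nonneg (by linarith)] at hx
    linarith
  have e3 : ∀ᶠ x : ℝ in atTop, 4 * (K0 : ℝ) ≤ x := eventually_ge_atTop _
  obtain ⟨n1, hn1⟩ := eventually_atTop.1 (hlogt.eventually ((e1.and e2).and e3))
  -- the large case
  have large : ∀ n : ℕ, n1 ≤ n →
      (1 / 200) * √((n : ℝ) * Real.log (Real.log n) / Real.log n) ≤ (M n : ℝ) := by
    intro n hn
    obtain ⟨⟨h1, h2⟩, h3⟩ := hn1 n hn
    set L := Real.log (n : ℝ) with hL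
    set l := Real.log L with hl
    have hL0 : 0 < L := by linarith
    have hn0 : 0 < n := by
      rcases Nat.eq_zero_or_pos n with h | h
      · rw [h] at hL; simp at hL; linarith
      · exact h
    have hnr : (0 : ℝ) < n := by exact_mod_cast hn0
    have hl1 : 4 ≤ l := by
      rw [hl]
      rw [Real.le_log_iff_exp_le hL0]
      have : Real.exp 4 = Real.exp 1 ^ 4 := by rw [← Real.exp_nat_mul]; norm_num
      rw [this]
      calc Real.exp 1 ^ 4 ≤ 2.7182818286 ^ 4 :=
            pow_le_pow_left₀ (Real.exp_pos 1).le Real.exp_one_lt_d9.le 4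
        _ ≤ 1000 := by norm_num
        _ ≤ L := h1
    set S := √((n : ℝ) * l / L) with hS
    have hS2 : S ^ 2 = (n : ℝ) * l / L := by
      rw [hS]; exact Real.sq_sqrt (by positivity)
    have hS0 : 0 < S := by rw [hS]; exact Real.sqrt_pos.2 (by positivity)
    -- S is large
    have hlogS : L / 4 + Real.log 200 ≤ Real.log S := by
      have h4 : 2 * Real.log S = L + Real.log l - l := by
        have := congrArg Real.log hS2
        rw [Real.log_pow, Real.log_div (by positivity) hL0.ne', Real.log_mul hnr.ne' (by positivity),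
          ← hL, ← hl] at this
        push_cast at this
        linarith
      have h5 : 0 ≤ Real.log l := Real.log_nonneg (by linarith)
      have h6 : Real.log 200 ≤ 8 := by
        have h7 : Real.log 200 ≤ Real.log 256 := Real.log_le_log (by norm_num) (by norm_num)
        have h8 : Real.log 256 = 8 * Real.log 2 := by
          rw [show (256 : ℝ) = 2 ^ 8 by norm_num, Real.log_pow]; norm_num
        have := Real.log_two_lt_d9
        linarith
      linarith
    have hSbig : Real.exp (L / 4) ≤ S / 200 := by
      rw [← Real.log_le_log_iff (Real.exp_pos _) (by positivity), Real.log_exp,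
        Real.log_div hS0.ne' (by norm_num)]
      linarith
    have hS200 : 1 ≤ S / 200 := le_trans (Real.one_le_exp (by linarith)) hSbig
    -- k
    set k := ⌊S / 100⌋₊ with hk
    have hkle : (k : ℝ) ≤ S / 100 := Nat.floor_le (by positivity)
    have hkgt : S / 100 < k + 1 := Nat.lt_floor_add_one _
    have hkge : S / 200 ≤ k := by linarith
    have hk0 : (0 : ℝ) < k := by linarith
    have hkexp : Real.exp (L / 4) ≤ k := hSbig.trans hkge
    have hkK : K0 ≤ k := by
      have h4 : L / 4 + 1 ≤ Real.exp (L / 4) := Real.add_one_le_exp _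
      have h5 : (K0 : ℝ) ≤ k := by linarith
      exact_mod_cast h5
    have hlogk : L / 4 ≤ Real.log k := (Real.le_log_iff_exp_le hk0).2 hkexp
    have hlogk0 : 0 < Real.log k := by linarith
    have hllk : l / 2 ≤ Real.log (Real.log k) := by
      have h4 : Real.log (L / 4) ≤ Real.log (Real.log k) := Real.log_le_log (by positivity) hlogk
      rw [Real.log_div hL0.ne' (by norm_num), ← hl] at h4
      have h5 : Real.log 4 = 2 * Real.log 2 := by
        rw [show (4 : ℝ) = 2 ^ 2 by norm_num, Real.log_pow]; norm_num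
      have := Real.log_two_lt_d9
      linarith
    have hk2 : (k : ℝ) ^ 2 ≤ (n : ℝ) * l / L / 10000 := by
      have h4 : (k : ℝ) ^ 2 ≤ (S / 100) ^ 2 := pow_le_pow_left₀ hk0.le hkle 2
      rw [div_pow, hS2] at h4
      norm_num at h4
      exact h4
    have hlkL : Real.log k ≤ L := by
      rw [hL]
      apply Real.log_le_log hk0
      have h4 : (k : ℝ) ^ 2 ≤ n := by
        refine hk2.trans ?_
        rw [div_div, div_le_iff₀ (by positivity)]
        have : l ≤ L := by linarith
        nlinarith
      have h5 : (1 : ℝ) ≤ k := by linarith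
      nlinarith
    have hcond : 1000 * ((k : ℝ) ^ 2 * Real.log k / Real.log (Real.log k)) ≤ n := by
      have h4 : (k : ℝ) ^ 2 * Real.log k / Real.log (Real.log k) ≤
          ((n : ℝ) * l / L / 10000) * L / (l / 2) := by
        apply div_le_div₀ (by positivity) _ (by positivity) hllk
        exact mul_le_mul hk2 hlkL hlogk0.le (by positivity)
      have h5 : ((n : ℝ) * l / L / 10000) * L / (l / 2) = n / 5000 := by
        have : l ≠ 0 := by positivity
        field_simp
        norm_num
      rw [h5] at h4
      linarith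
    obtain ⟨P, hP0, hPn, hPc, hPd⟩ := hK0 k hkK n hcond
    have h4 : k ≤ M n := le_M ⟨P, ⟨hPn, hPc⟩, hP0, hPd⟩
    have h5 : (k : ℝ) ≤ M n := by exact_mod_cast h4
    linarith
  -- all n
  refine ⟨1 / (200 * ((n1 : ℝ) + 1)), by positivity, ?_⟩
  intro n hn
  have hnr : (3 : ℝ) ≤ n := by exact_mod_cast hn
  have hc0 : (0 : ℝ) < (n1 : ℝ) + 1 := by positivity
  have hc1 : (1 : ℝ) ≤ (n1 : ℝ) + 1 := by
    have : (0 : ℝ) ≤ n1 := Nat.cast_nonneg _
    linarith
  rcases le_or_gt n1 n with h | h
  · have h1 := large n h
    refine le_trans ?_ h1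
    apply mul_le_mul_of_nonneg_right _ (Real.sqrt_nonneg _)
    apply one_div_le_one_div_of_le (by norm_num)
    linarith
  · have h1 : (1 : ℝ) ≤ M n := by exact_mod_cast one_le_M (by omega : 1 ≤ n)
    refine le_trans ?_ h1
    rw [div_mul_eq_mul_div, one_mul, div_le_one (by positivity)]
    have hL1 : 0 < Real.log n := Real.log_pos (by linarith)
    have h2 : Real.log (Real.log n) ≤ Real.log n := by
      have := Real.log_le_sub_one_of_pos hL1
      linarith
    have h3 : (n : ℝ) * Real.log (Real.log n) / Real.log n ≤ n := by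
      rw [div_le_iff₀ hL1]
      exact mul_le_mul_of_nonneg_left h2 (by positivity)
    calc √((n : ℝ) * Real.log (Real.log n) / Real.log n) ≤ √(((n1 : ℝ) + 1) ^ 2) := by
          apply Real.sqrt_le_sqrt
          refine h3.trans ?_
          have : (n : ℝ) ≤ n1 := by exact_mod_cast h.le
          nlinarith
      _ = (n1 : ℝ) + 1 := Real.sqrt_sq hc0.le
      _ ≤ 200 * ((n1 : ℝ) + 1) := by linarith

end Pool.Agent.Results.MP_178164_nt.VanishingOrderLower
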